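import Mathlib
import Pool.Agent.N634.OS.Tr

/-!
# Random sets of integers between consecutive odd squares: the sharp density threshold

Integers are chosen one at a time: `A n` is the event that `n` is chosen, and the conditional
probability of choosing `n + 1`, given all that was decided up to `n`, may depend on the past in any
way; no independence is assumed. If these conditional probabilities are asymptotic to
`κ log n / √n` then, almost surely, for `κ > 1 / 8` the number of the chosen integers between
`(2 k - 1) ^ 2` and `(2 k + 1) ^ 2` tends to infinity, and for `κ < 1 / 8` the number of the `k ≤ K` for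
which there is no chosen integer (or less than `m` chosen integers) is `K ^ (1 - 8 κ + o(1))`. In the
models of the primes (conditional probabilities asymptotic to `1 / log n`; the models of Cramér and of
Hawkins are of this kind) the number of the chosen integers is asymptotic to `4 k / log k`.
-/

set_option autoImplicit false

open MeasureTheory Filter Topology

namespace Pool.Agent.Results.MP_3a3367_nt.AdaptedThreshold

open Pool.Agent.N634.OS (between fewer)

/-- The conditional probability that `n + 1` is chosen, given the decisions up to `n`. -/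
noncomputable def condProb {Ω : Type} {m0 : MeasurableSpace Ω} (μ : Measure Ω) (ℱ : Filtration ℕ m0)
    (A : ℕ → Set Ω) (n : ℕ) : Ω → ℝ :=
  μ[(A (n + 1)).indicator (fun _ => (1 : ℝ)) | ℱ n]

/-- Let `A n` be adapted events (`n` is chosen), `between A k ω` the number of the chosen integers
between `(2 k - 1) ^ 2` and `(2 k + 1) ^ 2`, and `fewer A m K ω` the number of the `k`, `1 ≤ k ≤ K`, with
less than `m` such integers.

(1) Let the conditional probabilities be almost surely asymptotic to `κ log n / √n`, `κ ≥ 0`
(`o(log n / √n)` if `κ = 0`). If `κ > 1 / 8` then almost surely `between A k ω` tends to infinity. If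
`κ < 1 / 8` then for every `m ≥ 1` almost surely `fewer A m K ω = K ^ (1 - 8 κ + o(1))`.

(2) Let the conditional probabilities be almost surely asymptotic to `1 / log n`. Then almost surely
`between A k ω` is asymptotic to `4 k / log k`. -/
theorem result {Ω : Type} {m0 : MeasurableSpace Ω} (μ : Measure Ω) [IsProbabilityMeasure μ]
    (ℱ : Filtration ℕ m0) (A : ℕ → Set Ω) (hA : ∀ n, MeasurableSet[ℱ n] (A n)) :
    (∀ κ : ℝ, 0 ≤ κ →
      (∀ᵐ ω ∂μ, Tendsto (fun n : ℕ => condProb μ ℱ A n ω * √(n : ℝ) / Real.log n) atTop (𝓝 κ)) →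
      (1 / 8 < κ → ∀ᵐ ω ∂μ, Tendsto (fun k => between A k ω) atTop atTop) ∧
      (κ < 1 / 8 → ∀ m : ℕ, 1 ≤ m → ∀ᵐ ω ∂μ,
        Tendsto (fun K : ℕ => Real.log (fewer A m K ω) / Real.log K) atTop (𝓝 (1 - 8 * κ)))) ∧
    ((∀ᵐ ω ∂μ, Tendsto (fun n : ℕ => condProb μ ℱ A n ω * Real.log n) atTop (𝓝 1)) →
      ∀ᵐ ω ∂μ, Tendsto (fun k : ℕ => (between A k ω : ℝ) * Real.log k / (4 * k)) atTop (𝓝 1)) := by
  refine ⟨fun κ hκ h => ?_, fun h => Pool.Agent.N634.OS.prime_model hA h⟩
  obtain ⟨h1, h2⟩ := Pool.Agent.N634.OS.first_law hA hκ h
  refine ⟨fun h3 => ?_, fun h3 m hm => ?_⟩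
  · filter_upwards [h1 h3] with ω hω
    rw [← tendsto_add_atTop_iff_nat 1]
    refine hω.congr fun k => ?_
    rw [Pool.Agent.N634.OS.between_succ]
  · filter_upwards [h2 h3 m hm] with ω hω
    refine hω.congr fun K => ?_
    rw [Pool.Agent.N634.OS.fewer_eq]

end Pool.Agent.Results.MP_3a3367_nt.AdaptedThreshold
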