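import Pool.Agent.N725.SQ.OddMain

/-!
# The intervals between consecutive odd squares, with prime-free ends and middle, at the orbits of matrices

`I_m` is the interval between `(2 m - 1)²` and `(2 m + 1)²`. Let `R(x) = log x (log₂ x) ^ 2 log₄ x / (log₃ x) ^ 2`
be the record length of Ford, Green, Konyagin, Maynard and Tao. We find many `m` of ARITHMETIC ORIGIN for which no
prime lies within `D`, of the size of `R`, of the two ends `(2 m - 1)²`, `(2 m + 1)²` and of the middle `(2 m)²` of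
`I_m`: the integers congruent modulo a large prime `p` to discrete exponentials `g ^ x`, and to the coordinates of
linear recurrences or of linear congruential generators.

Precisely (`result`), let `k ≥ 1` and `0 < δ ≤ 1`. There is `κ > 0` such that the following holds for all large
primes `p`. Let `A` be a matrix of size `k` modulo `p` and `T ≥ 1` with `A ^ T = 1` such that `A ^ x - 1` is
invertible for `0 < x < T`, let `v ≠ 0` and `w` be vectors, and let `∏ (M_i, M_i + L_i]` be a box with sides between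
`p^δ` and `p` and volume `V` with `V T ≥ B p^(k + δ)`, where `B = p^(k/2)` or, if `k = 1`, also
`B = p^(1/8) T^(2/3)`. If `J² ≤ κ log p` and `D J ≤ κ R(p)`, then for at least `V T / p^(k + δ)` exponents
`0 ≤ x < T` the box contains integers `n_i ≡ (A ^ x v + w)_i (mod p)` such that no prime lies within `D` of one of the
numbers `(2 m - 1)², (2 m)², (2 m + 1)²`, `m = n_i, n_i + 1, ..., n_i + J - 1`, `|m| > p^δ`.

For `k = 1`, `v = 1`, `w = 0` and one element `g` of order `T` (`exponentials`): every interval of length `L ≤ p` with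
`L T ≥ p^(1 + δ) min (p^(1/2), p^(1/8) T^(2/3))` contains integers `m ≡ g ^ x (mod p)` with this property, for at least
`L T / p^(1 + δ)` exponents `x < T`; so for `L = p` orders `T ≥ p^(3/8 + 3 δ)` are allowed.

Proof (`Pool.Agent.N725.SQ`). The covering sieve for the polynomials `(X + h)² + a` and well distributed families
of integer vectors (`Pool.Agent.N542.PV`, helper542, after helper201 and the starting files) is applied to the
family `2 n_i - 2 - ε_i`, `ε_i ∈ {0, 1}`. The exponential sums over the orbits are due to helper286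
(`MP_69be96_nt.DiscreteExponentials`; for `k = 1` by the Heath-Brown-Konyagin lemma of the starting library).
-/

set_option autoImplicit false

namespace Pool.Agent.Results.MP_3a3367_nt.EndsAtMatrixOrbits

open Finset Filter Matrix

/-- the record length `R(x) = log x (log₂ x) ^ 2 log₄ x / (log₃ x) ^ 2` -/
noncomputable def R (x : ℝ) : ℝ :=
  Real.log x * (Real.log (Real.log x)) ^ 2 * Real.log (Real.log (Real.log (Real.log x))) /
    (Real.log (Real.log (Real.log x))) ^ 2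

/-- no prime lies within `D` of `m` -/
def Isolated (D : ℕ) (m : ℤ) : Prop := ∀ q : ℕ, q.Prime → (D : ℤ) < |(q : ℤ) - m|

/-- no prime lies within `D` of the ends `(2 m - 1)²`, `(2 m + 1)²` and of the middle `(2 m)²` of `I_m` -/
def EndsAndMiddle (D : ℕ) (m : ℤ) : Prop :=
  Isolated D ((2 * m - 1) ^ 2) ∧ Isolated D ((2 * m) ^ 2) ∧ Isolated D ((2 * m + 1) ^ 2)

open Classical in
/-- The main theorem. -/
theorem result (k : ℕ) (hk : 1 ≤ k) (δ : ℝ) (hδ : 0 < δ) (hδ1 : δ ≤ 1) :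
    ∃ κ : ℝ, 0 < κ ∧ ∀ᶠ p : ℕ in atTop, p.Prime →
      ∀ (A : Matrix (Fin k) (Fin k) (ZMod p)) (T : ℕ), 1 ≤ T → A ^ T = 1 →
      (∀ x : ℕ, 0 < x → x < T → IsUnit (A ^ x - 1)) →
      ∀ v w : Fin k → ZMod p, v ≠ 0 →
      ∀ B : ℝ, (B = (p : ℝ) ^ ((k : ℝ) / 2) ∨
        (k = 1 ∧ B = (p : ℝ) ^ (1 / 8 : ℝ) * (T : ℝ) ^ (2 / 3 : ℝ))) →
      ∀ (M : Fin k → ℤ) (L : Fin k → ℕ), (∀ i, (p : ℝ) ^ δ ≤ L i ∧ L i ≤ p) →
      B * (p : ℝ) ^ (k + δ) ≤ (∏ i, (L i : ℝ)) * T →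
      ∀ (J D : ℕ), (J : ℝ) ^ 2 ≤ κ * Real.log p → (D : ℝ) * J ≤ κ * R p →
      (∏ i, (L i : ℝ)) * T / (p : ℝ) ^ (k + δ) ≤
        ({x : ℕ | x < T ∧ ∃ n : Fin k → ℤ, (∀ i, M i < n i ∧ n i ≤ M i + L i ∧
            ((n i : ℤ) : ZMod p) = (A ^ x *ᵥ v + w) i) ∧
          ∀ i, ∀ t : ℕ, t < J → (p : ℝ) ^ δ < |((n i + t : ℤ) : ℝ)| →
            EndsAndMiddle D (n i + t)}.ncard : ℝ) := by
  obtain ⟨κ, hκ, hev⟩ := Pool.Agent.N725.SQ.orbit_odd k hk δ hδ hδ1
  refine ⟨κ, hκ, ?_⟩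
  filter_upwards [hev] with p hp
  intro hpp A T hT hA hfree v w hv B hB M L hL hV J D hJ hD
  haveI : Fact p.Prime := ⟨hpp⟩
  refine (hp A T hT hA hfree v w hv B hB M L hL hV J D hJ hD).trans ?_
  rw [Nat.cast_le, ← Set.ncard_coe_finset]
  apply Set.ncard_le_ncard _ ((Set.finite_lt_nat T).subset fun x hx => hx.1)
  intro x hx
  rw [Finset.mem_coe, mem_filter, mem_range] at hx
  obtain ⟨hx1, hx3, hx4⟩ := hx
  refine ⟨hx1, _, hx3, ?_⟩
  intro i t ht hbig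
  refine ⟨fun q hq => ?_, fun q hq => ?_, fun q hq => ?_⟩
  · have h1 := hx4 i t ht hbig (-1) (by norm_num) (by norm_num) q hq
    rwa [← sub_eq_add_neg] at h1
  · have h1 := hx4 i t ht hbig 0 (by norm_num) (by norm_num) q hq
    rwa [add_zero] at h1
  · exact hx4 i t ht hbig 1 (by norm_num) (by norm_num) q hq

open Classical in
/-- Discrete exponentials. -/
theorem exponentials (δ : ℝ) (hδ : 0 < δ) (hδ1 : δ ≤ 1) :
    ∃ κ : ℝ, 0 < κ ∧ ∀ᶠ p : ℕ in atTop, p.Prime → ∀ (g : ZMod p) (T : ℕ), g ≠ 0 → T = orderOf g →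
      ∀ (M : ℤ) (L : ℕ), (p : ℝ) ^ δ ≤ L → L ≤ p →
      min ((p : ℝ) ^ (1 / 2 : ℝ)) ((p : ℝ) ^ (1 / 8 : ℝ) * (T : ℝ) ^ (2 / 3 : ℝ)) * (p : ℝ) ^ (1 + δ) ≤ L * T →
      ∀ D : ℕ, (D : ℝ) ≤ κ * R p →
      (L : ℝ) * T / (p : ℝ) ^ (1 + δ) ≤
        ({x : ℕ | x < T ∧ ∃ m : ℤ, M < m ∧ m ≤ M + L ∧ ((m : ℤ) : ZMod p) = g ^ x ∧
            ((p : ℝ) ^ δ < |(m : ℝ)| → EndsAndMiddle D m)}.ncard : ℝ) := by
  obtain ⟨κ, hκ, hev⟩ := result 1 le_rfl δ hδ hδ1
  have hTt : Tendsto (fun p : ℕ => (p : ℝ)) atTop atTop := tendsto_natCast_atTop_atTop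
  refine ⟨κ, hκ, ?_⟩
  filter_upwards [hev, hTt.eventually (Real.tendsto_log_atTop.eventually_ge_atTop (1 / κ))] with p hp hlog
  intro hpp g T hg hT M L hL1 hL2 hV D hD
  rw [div_le_iff₀ hκ] at hlog
  haveI : Fact p.Prime := ⟨hpp⟩
  have hp0 : (0 : ℝ) < p := by exact_mod_cast hpp.pos
  obtain ⟨G, hG⟩ : ∃ G : Matrix (Fin 1) (Fin 1) (ZMod p), G 0 0 = g := ⟨Matrix.of fun _ _ => g, rfl⟩
  have hentry : ∀ x : ℕ, (G ^ x) 0 0 = g ^ x := fun x => by
    rw [Pool.Agent.N725.SQ.pow_one_entry, hG]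
  have hfin : IsOfFinOrder g := by
    rw [isOfFinOrder_iff_pow_eq_one]
    exact ⟨p - 1, Nat.sub_pos_of_lt hpp.one_lt, ZMod.pow_card_sub_one_eq_one hg⟩
  have hT1 : 1 ≤ T := by rw [hT]; exact hfin.orderOf_pos
  have hB : ∃ B : ℝ, (B = (p : ℝ) ^ (((1 : ℕ) : ℝ) / 2) ∨
      ((1 : ℕ) = 1 ∧ B = (p : ℝ) ^ (1 / 8 : ℝ) * (T : ℝ) ^ (2 / 3 : ℝ))) ∧
      B = min ((p : ℝ) ^ (1 / 2 : ℝ)) ((p : ℝ) ^ (1 / 8 : ℝ) * (T : ℝ) ^ (2 / 3 : ℝ)) := by
    refine ⟨_, ?_, rfl⟩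
    rcases min_choice ((p : ℝ) ^ (1 / 2 : ℝ)) ((p : ℝ) ^ (1 / 8 : ℝ) * (T : ℝ) ^ (2 / 3 : ℝ)) with h | h
    · left; rw [h, Nat.cast_one]
    · right; exact ⟨rfl, h⟩
  obtain ⟨B, hB1, hB2⟩ := hB
  have h1 := hp hpp G T hT1 (by
      apply Pool.Agent.N725.SQ.pow_one_eq
      rw [hG, hT]
      exact pow_orderOf_eq_one g) (by
      intro x hx hxT
      rw [Matrix.isUnit_iff_isUnit_det, Matrix.det_fin_one, Matrix.sub_apply, hentry, Matrix.one_apply_eq,
        isUnit_iff_ne_zero, sub_ne_zero]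
      rw [hT] at hxT
      exact pow_ne_one_of_lt_orderOf (by omega) hxT)
    (fun _ => 1) (fun _ => 0) (fun h => one_ne_zero (congrFun h 0)) B hB1 (fun _ => M) (fun _ => L)
    (fun _ => ⟨hL1, hL2⟩) (by
      rw [Fin.prod_univ_one, hB2, Nat.cast_one]
      exact hV) 1 D (by
        rw [Nat.cast_one, one_pow]; linarith) (by rw [Nat.cast_one, mul_one]; exact hD)
  rw [Fin.prod_univ_one, Nat.cast_one] at h1
  refine h1.trans ?_
  rw [Nat.cast_le]
  apply Set.ncard_le_ncard _ ((Set.finite_lt_nat T).subset fun x hx => hx.1)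
  rintro x ⟨hx, n, hn1, hn2⟩
  obtain ⟨g1, g2, g3⟩ := hn1 0
  refine ⟨hx, n 0, g1, g2, ?_, ?_⟩
  · rw [g3, Pi.add_apply, add_zero, mulVec, dotProduct, Fin.sum_univ_one, hentry, mul_one]
  · intro hbig
    have h5 := hn2 0 0 (by norm_num) (by
      rw [Nat.cast_zero, add_zero]
      exact hbig)
    rwa [Nat.cast_zero, add_zero] at h5

end Pool.Agent.Results.MP_3a3367_nt.EndsAtMatrixOrbits
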